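import Pool.Agent.helper19.MX.SpecD

/-!
# Row mx:FIH (MP_a875de_ag): fixed fields
-/

set_option linter.style.haveILetI false
set_option linter.unusedVariables false

namespace MX

open Pool.Agent.helper53.AU AN
open scoped Classical Topology IntermediateField
open Finset (range powerset Icc)

theorem FIH_deg (E F : Type) [Field E] [Field F] [Algebra E F] (r t : ℕ) (y : ℕ → F) (φ : ℕ → E)
    (h : ∀ j, r ≤ j → j < r + t → y j ^ 2 + y j = algebraMap E F (φ j))
    (hgen : IntermediateField.adjoin E (y '' {j | r ≤ j ∧ j < r + t}) = ⊤) :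
    FiniteDimensional E F ∧ Module.finrank E F ≤ 2 ^ t := by
  have key : ∀ s, s ≤ t → FiniteDimensional E (IntermediateField.adjoin E (y '' {j | r ≤ j ∧ j < r + s})) ∧
      Module.finrank E (IntermediateField.adjoin E (y '' {j | r ≤ j ∧ j < r + s})) ≤ 2 ^ s := by
    intro s
    induction s with
    | zero =>
      intro _
      have h1 : (y '' {j | r ≤ j ∧ j < r + 0}) = ∅ := by
        ext z
        simp only [Set.mem_image, Set.mem_ofPred_eq, Set.mem_empty_iff_false, iff_false]
        rintro ⟨j, ⟨h2, h3⟩, -⟩
        omega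
      rw [h1, IntermediateField.adjoin_empty]
      refine ⟨inferInstance, ?_⟩
      rw [IntermediateField.finrank_bot]
      norm_num
    | succ s ih =>
      intro hs
      obtain ⟨h1, h2⟩ := ih (by omega)
      have h3 : (y '' {j | r ≤ j ∧ j < r + (s + 1)}) = (y '' {j | r ≤ j ∧ j < r + s}) ∪ {y (r + s)} := by
        ext z
        simp only [Set.mem_image, Set.mem_ofPred_eq, Set.mem_union, Set.mem_singleton_iff]
        constructor
        · rintro ⟨j, ⟨h4, h5⟩, rfl⟩
          by_cases h6 : j < r + s
          · exact Or.inl ⟨j, ⟨h4, h6⟩, rfl⟩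
          · right
            rw [show j = r + s by omega]
        · rintro (⟨j, ⟨h4, h5⟩, rfl⟩ | rfl)
          · exact ⟨j, ⟨h4, by omega⟩, rfl⟩
          · exact ⟨r + s, ⟨by omega, by omega⟩, rfl⟩
      rw [h3, IntermediateField.adjoin_union]
      have h4 := h (r + s) (by omega) (by omega)
      have h5 : Polynomial.aeval (y (r + s)) (Polynomial.X ^ 2 + Polynomial.X - Polynomial.C (φ (r + s)) : Polynomial E) = 0 := by
        simp only [map_add, map_sub, map_pow, Polynomial.aeval_X, Polynomial.aeval_C]
        rw [h4, sub_self]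
      have h6 : (Polynomial.X ^ 2 + Polynomial.X - Polynomial.C (φ (r + s)) : Polynomial E).natDegree = 2 := by
        compute_degree!
      have h7 : (Polynomial.X ^ 2 + Polynomial.X - Polynomial.C (φ (r + s)) : Polynomial E) ≠ 0 := by
        intro h8
        rw [h8, Polynomial.natDegree_zero] at h6
        omega
      have hint : IsIntegral E (y (r + s)) := by
        rw [← isAlgebraic_iff_isIntegral]
        exact ⟨_, h7, h5⟩
      haveI : FiniteDimensional E (IntermediateField.adjoin E {y (r + s)}) := IntermediateField.adjoin.finiteDimensional hint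
      haveI := h1
      refine ⟨IntermediateField.finiteDimensional_sup _ _, ?_⟩
      refine (IntermediateField.finrank_sup_le _ _).trans ?_
      rw [pow_succ]
      refine Nat.mul_le_mul h2 ?_
      rw [IntermediateField.adjoin.finrank hint]
      have h8 := Polynomial.natDegree_le_of_dvd (minpoly.dvd E _ h5) h7
      rw [h6] at h8
      exact h8
  obtain ⟨h1, h2⟩ := key t le_rfl
  rw [hgen] at h1 h2
  rw [IntermediateField.finrank_top'] at h2
  haveI := h1
  exact ⟨Module.Finite.equiv (IntermediateField.topEquiv (F := E) (E := F)).toLinearEquiv, h2⟩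

theorem FIH_fin {k F : Type} [Field k] [Field F] [Algebra k F] (H : Subgroup (F ≃ₐ[k] F))
    (hH : Finite H) : Module.finrank (IntermediateField.fixedField H) F = Nat.card H := by
  have := Fintype.ofFinite H
  have h2 : Module.finrank (FixedPoints.subfield H F) F = Fintype.card H :=
    FixedPoints.finrank_eq_card H F
  rw [Nat.card_eq_fintype_card]
  exact h2

theorem FIH (hTOW : TOW_stmt) : FIH_stmt := by
  intro k F _ _ _ _ hperf x r t y f hAS H hH hfix
  have hHfin : Finite H := Nat.finite_of_card_ne_zero (by rw [hH]; positivity)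
  have hrank := FIH_fin H hHfin
  rw [hH] at hrank
  have hx : x ∈ IntermediateField.fixedField H := by
    rw [IntermediateField.mem_fixedField_iff]
    exact fun σ hσ => (hfix σ hσ).1
  have hy : ∀ j, j < r → y j ∈ IntermediateField.fixedField H := by
    intro j hj
    rw [IntermediateField.mem_fixedField_iff]
    exact fun σ hσ => (hfix σ hσ).2 j hj
  obtain ⟨E, hE⟩ : ∃ E : IntermediateField k F, E = IntermediateField.adjoin k ({x} ∪ y '' {j | j < r}) := ⟨_, rfl⟩
  have hle : E ≤ IntermediateField.fixedField H := by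
    rw [hE, IntermediateField.adjoin_le_iff]
    rintro z (hz | ⟨j, hj, rfl⟩)
    · rw [Set.mem_singleton_iff.mp hz]
      exact hx
    · exact hy j hj
  have hxE : x ∈ E := by
    rw [hE]
    exact IntermediateField.subset_adjoin _ _ (Or.inl rfl)
  have hset : ({x} ∪ y '' {j | j < r}) ∪ (y '' {j | r ≤ j ∧ j < r + t}) = {x} ∪ y '' {j | j < r + t} := by
    ext z
    simp only [Set.mem_image, Set.mem_ofPred_eq, Set.mem_union, Set.mem_singleton_iff]
    constructor
    · rintro ((h | ⟨j, hj, rfl⟩) | ⟨j, hj, rfl⟩)
      · exact Or.inl h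
      · exact Or.inr ⟨j, by omega, rfl⟩
      · exact Or.inr ⟨j, hj.2, rfl⟩
    · rintro (h | ⟨j, hj, rfl⟩)
      · exact Or.inl (Or.inl h)
      · by_cases h1 : j < r
        · exact Or.inl (Or.inr ⟨j, h1, rfl⟩)
        · exact Or.inr ⟨j, ⟨by omega, hj⟩, rfl⟩
  have hgen : IntermediateField.adjoin E (y '' {j | r ≤ j ∧ j < r + t}) = ⊤ := by
    rw [← IntermediateField.restrictScalars_eq_top_iff (K := k), hE, IntermediateField.adjoin_adjoin_left, hset]
    exact hAS.gen
  obtain ⟨h1, h2⟩ := FIH_deg E F r t y (fun j => Polynomial.aeval (⟨x, hxE⟩ : E) (f j)) (by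
    intro j _ hj
    rw [hAS.eq j hj, ← Polynomial.aeval_algebraMap_apply]
    rfl) hgen
  haveI := h1
  have hEH : E = IntermediateField.fixedField H :=
    IntermediateField.eq_of_le_of_finrank_le' hle (by rw [hrank]; exact h2)
  refine ⟨⟨x, hx⟩, fun j => if h : j < r then ⟨y j, hy j h⟩ else 0, rfl, ?_⟩
  constructor
  · intro h
    exact hAS.tr ((isAlgebraic_algebraMap_iff (algebraMap (IntermediateField.fixedField H) F).injective).2 h)
  · apply IntermediateField.lift_injective (IntermediateField.fixedField H)
    rw [IntermediateField.lift_adjoin, IntermediateField.lift_top]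
    refine Eq.trans ?_ (hE.symm.trans hEH)
    congr 1
    ext z
    simp only [Set.mem_image, Set.mem_union, Set.mem_singleton_iff, Set.mem_ofPred_eq]
    constructor
    · rintro ⟨w, (rfl | ⟨j, hj, rfl⟩), rfl⟩
      · exact Or.inl rfl
      · right
        refine ⟨j, hj, ?_⟩
        rw [dif_pos hj]
    · rintro (rfl | ⟨j, hj, rfl⟩)
      · exact ⟨⟨z, hx⟩, Or.inl rfl, rfl⟩
      · exact ⟨⟨y j, hy j hj⟩, Or.inr ⟨j, hj, by rw [dif_pos hj]⟩, rfl⟩
  · intro j hj
    rw [dif_pos hj]
    apply Subtype.ext
    have h3 := hAS.eq j (by omega)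
    have h4 : ((Polynomial.aeval (⟨x, hx⟩ : IntermediateField.fixedField H) (f j) : IntermediateField.fixedField H) : F) =
        Polynomial.aeval x (f j) :=
      (Polynomial.aeval_algebraMap_apply F (⟨x, hx⟩ : IntermediateField.fixedField H) (f j)).symm
    rw [h4]
    exact h3
  · intro T hT hT0
    exact hAS.odd T (hT.trans (by
      intro a ha
      rw [Finset.mem_range] at ha ⊢
      omega)) hT0

end MX
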